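import Pool.Agent.H620R2.GaugeR.Defs

/-!
# Merlin-Arthur games, Arthur-Merlin games and `SBP` relative to an oracle

(Continues `Pool.Agent.H620R2.Gauge.Defs` and `Pool.Agent.H620R2.GaugeR.Defs`: oracles, polynomial
time relative to an oracle, acceptance probabilities.)
-/

namespace Pool.Agent.W895.MA

open Pool.Agent.NPC Pool.Agent.H620R2.Gauge

/-- The probability that, for a uniformly random string `w` of length `m`, there is a message `y`
of length at most `m` such that `V` accepts `⟨w, ⟨y, x⟩⟩`. -/
noncomputable def amPr (V : List Bool → List Bool) (m : ℕ) (x : List Bool) : ℝ :=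
  (Nat.card {w : Fin m → Bool // ∃ y : List Bool, y.length ≤ m ∧
    V (pairBits (List.ofFn w) (pairBits y x)) = [true]} : ℝ) / 2 ^ m

/-- The language `L` is in `AM` relative to `A`: Arthur sends a random string `w`, Merlin answers
with a message `y`, and `V` accepts or rejects `⟨w, ⟨y, x⟩⟩`. -/
def IsAM (A : Oracle) (L : Set (List Bool)) : Prop :=
  ∃ (V : List Bool → List Bool) (p : Polynomial ℕ), IsFP A V ∧ ∀ x,
    (x ∈ L → 2 / 3 ≤ amPr V (p.eval x.length) x) ∧
    (x ∉ L → amPr V (p.eval x.length) x ≤ 1 / 3)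

/-- The language `L` is in `MA` relative to `A`: Merlin sends a message `y`, and Arthur accepts or
rejects by means of `V` and a random string `w`. -/
def IsMA (A : Oracle) (L : Set (List Bool)) : Prop :=
  ∃ (V : List Bool → List Bool) (p : Polynomial ℕ), IsFP A V ∧ ∀ x,
    (x ∈ L → ∃ y : List Bool, y.length ≤ p.eval x.length ∧
      2 / 3 ≤ accPr V (p.eval x.length) (pairBits y x)) ∧
    (x ∉ L → ∀ y : List Bool, y.length ≤ p.eval x.length →
      accPr V (p.eval x.length) (pairBits y x) ≤ 1 / 3)

/-- The language `L` is in `SBP` (small bounded-error probability) relative to `A`: the probability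
of acceptance is at least `(1 + ε) 2 ^ (-q(|x|))` if `x` is in `L`, and at most
`(1 - ε) 2 ^ (-q(|x|))` if it is not. -/
def IsSBP (A : Oracle) (L : Set (List Bool)) : Prop :=
  ∃ (V : List Bool → List Bool) (p q : Polynomial ℕ) (ε : ℝ), IsFP A V ∧ 0 < ε ∧ ∀ x,
    (x ∈ L → (1 + ε) * (1 / 2) ^ q.eval x.length ≤ accPr V (p.eval x.length) x) ∧
    (x ∉ L → accPr V (p.eval x.length) x ≤ (1 - ε) * (1 / 2) ^ q.eval x.length)

end Pool.Agent.W895.MA
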