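import Pool.Agent.W895.MA.Lower
import Pool.Agent.H620R2.Gauge.C

/-!
# Generic oracles
-/

namespace Pool.Agent.W895.MA

open Pool.Agent.NPC Pool.Agent.H620R2.Gauge Finset Filter Topology

theorem poly_lt (P : Polynomial ℕ) {c : ℝ} (hc : 0 < c) :
    ∀ᶠ n : ℕ in atTop, ((P.eval n : ℕ) : ℝ) < c * 2 ^ n := by
  have key : Tendsto (fun n : ℕ => ((P.eval n : ℕ) : ℝ) / 2 ^ n) atTop (𝓝 0) := by
    induction P using Polynomial.induction_on' with
    | add P Q hP hQ =>
      have := hP.add hQ
      simp only [add_zero] at this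
      refine this.congr fun n => ?_
      rw [Polynomial.eval_add]
      push_cast
      ring
    | monomial k a =>
      have h1 := (tendsto_pow_const_div_const_pow_of_one_lt k (r := (2 : ℝ))
        (by norm_num)).const_mul (a : ℝ)
      rw [mul_zero] at h1
      refine h1.congr fun n => ?_
      rw [Polynomial.eval_monomial]
      push_cast
      ring
  have h1 := key.eventually (gt_mem_nhds hc)
  filter_upwards [h1] with n hn
  rwa [div_lt_iff₀ (by positivity)] at hn

/-- `A` and `A'` agree on the strings of length at most `K` -/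
def Agree (K : ℕ) (A A' : Oracle) : Prop := ∀ z : List Bool, z.length ≤ K → A' z = A z

theorem isOpen_agree (K : ℕ) (A : Oracle) : IsOpen {A' : Oracle | Agree K A A'} := by
  have h1 : {A' : Oracle | Agree K A A'} =
      ⋂ z ∈ {z : List Bool | z.length ≤ K}, {A' : Oracle | A' z = A z} := by
    ext A'
    simp [Agree]
  rw [h1]
  refine (List.finite_length_le Bool K).isOpen_biInter fun z _ => ?_
  exact (isOpen_discrete ({A z} : Set Bool)).preimage
    (continuous_apply (A := fun _ : List Bool => Bool) z)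

theorem isOpen_of_agree {P : Oracle → Prop} {K : ℕ}
    (h : ∀ A A', Agree K A A' → P A → P A') : IsOpen {A : Oracle | P A} := by
  rw [isOpen_iff_forall_mem_open]
  intro A hA
  exact ⟨{A' | Agree K A A'}, fun A' hA' => h A A' hA' hA, isOpen_agree K A, fun _ _ => rfl⟩

theorem out_agree (M : Alg) : ∃ qb : Polynomial ℕ, ∀ (A A' : Oracle) (x : List Bool),
    Agree (qb.eval x.length) A A' → M.out A' x = M.out A x := by
  obtain ⟨qb, h⟩ := M.out_local
  refine ⟨qb, fun A A' x hA => ?_⟩
  obtain ⟨Q, _, h2, h3⟩ := h A x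
  exact h3 A' fun q hq => hA q (h2 q hq)

theorem accM_agree (M : Alg) : ∃ qb : Polynomial ℕ, ∀ (A A' : Oracle) (m : ℕ) (z : List Bool),
    Agree (qb.eval (2 * m + 1 + z.length)) A A' → accM M A' m z = accM M A m z := by
  obtain ⟨qb, h⟩ := out_agree M
  refine ⟨qb, fun A A' m z hA => ?_⟩
  unfold accM
  congr 1
  refine Finset.sum_congr rfl fun w _ => ?_
  rw [h A A' _ (by rwa [length_pairBits, List.length_ofFn])]

theorem Agree.mono {K K' : ℕ} (h : K ≤ K') {A A' : Oracle} (hA : Agree K' A A') : Agree K A A' :=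
  fun z hz => hA z (hz.trans h)

theorem Agree.symm {K : ℕ} {A A' : Oracle} (hA : Agree K A A') : Agree K A' A :=
  fun z hz => (hA z hz).symm

theorem tab_agree {n : ℕ} {A A' : Oracle} (h : Agree (2 * n) A A') : tab A' n = tab A n := by
  funext u i
  have := i.2
  refine h _ ?_
  simp
  omega

theorem mem_LL_agree {x : List Bool} {A A' : Oracle} (h : Agree (2 * x.length) A A') :
    x ∈ LL A' ↔ x ∈ LL A := by
  unfold LL
  rw [Set.mem_ofPred_eq, Set.mem_ofPred_eq, tab_agree h]

theorem isOpen_corrMA (M : Alg) (p : Polynomial ℕ) (x : List Bool) :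
    IsOpen {A : Oracle | ¬ CorrMA M p A x} := by
  obtain ⟨qb, hqb⟩ := accM_agree M
  have key : ∀ A A' : Oracle, Agree (2 * x.length + qb.eval (2 * p.eval x.length + 1 +
      (2 * p.eval x.length + 1 + x.length))) A A' → CorrMA M p A x → CorrMA M p A' x := by
    intro A A' hA hc
    have h1 : ∀ y : List Bool, y.length ≤ p.eval x.length →
        accM M A' (p.eval x.length) (pairBits y x) = accM M A (p.eval x.length) (pairBits y x) := by
      intro y hy
      refine hqb _ _ _ _ (hA.mono (le_trans (eval_mono _ ?_) (Nat.le_add_left _ _)))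
      rw [length_pairBits]
      omega
    have h2 := mem_LL_agree (hA.mono (Nat.le_add_right _ _))
    refine ⟨fun hx => ?_, fun hx y hy => ?_⟩
    · obtain ⟨y, hy, h3⟩ := hc.1 (h2.1 hx)
      exact ⟨y, hy, by rwa [h1 y hy]⟩
    · rw [h1 y hy]
      exact hc.2 (fun h => hx (h2.2 h)) y hy
  exact isOpen_of_agree fun A A' hA hc h => hc (key A' A hA.symm h)

theorem isOpen_corrSBP (M : Alg) (p q : Polynomial ℕ) (ε : ℝ) (x : List Bool) :
    IsOpen {A : Oracle | ¬ CorrSBP M p q ε A x} := by
  obtain ⟨qb, hqb⟩ := accM_agree M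
  have key : ∀ A A' : Oracle, Agree (2 * x.length + qb.eval (2 * p.eval x.length + 1 +
      x.length)) A A' → CorrSBP M p q ε A x → CorrSBP M p q ε A' x := by
    intro A A' hA hc
    have h1 : accM M A' (p.eval x.length) x = accM M A (p.eval x.length) x :=
      hqb _ _ _ _ (hA.mono (Nat.le_add_left _ _))
    have h2 := mem_LL_agree (hA.mono (Nat.le_add_right _ _))
    refine ⟨fun hx => ?_, fun hx => ?_⟩
    · rw [h1]
      exact hc.1 (h2.1 hx)
    · rw [h1]
      exact hc.2 fun h => hx (h2.2 h)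
  exact isOpen_of_agree fun A A' hA hc h => hc (key A' A hA.symm h)

theorem plant_agree (B : Oracle) {n : ℕ} (g : Vec n → Vec n) : Agree n B (plant B n g) :=
  fun _ hz => plant_off B g (not_isPos hz)

/-- density: it suffices to change arbitrary oracles on long strings only -/
theorem dense_of {P : Oracle → Prop}
    (h : ∀ (B : Oracle) (K : ℕ), ∃ A : Oracle, Agree K B A ∧ P A) : Dense {A : Oracle | P A} := by
  rw [dense_iff_inter_open]
  rintro U hU ⟨B, hB⟩
  rw [isOpen_pi_iff] at hU
  obtain ⟨I, u, h1, h2⟩ := hU B hB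
  obtain ⟨A, hA, hP⟩ := h B (I.sup List.length)
  refine ⟨A, h2 ?_, hP⟩
  intro z hz
  rw [hA z (Finset.le_sup (f := List.length) hz)]
  exact (h1 z hz).2

theorem residual_ma (M : Alg) (p : Polynomial ℕ) :
    {A : Oracle | ∃ n : ℕ, ¬ CorrMA M p A (x0 n)} ∈ residual Oracle := by
  refine residual_of_dense_open ?_ (dense_of fun B K => ?_)
  · have h1 : {A : Oracle | ∃ n : ℕ, ¬ CorrMA M p A (x0 n)} =
        ⋃ n : ℕ, {A : Oracle | ¬ CorrMA M p A (x0 n)} := by
      ext A
      simp
    rw [h1]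
    exact isOpen_iUnion fun n => isOpen_corrMA M p (x0 n)
  · let R : Polynomial ℕ := (p + 2) * M.p.comp (2 * p + 1 + (2 * p + 1 + Polynomial.X))
    have hR : ∀ n, R.eval n =
        (p.eval n + 2) * M.p.eval (2 * p.eval n + 1 + (2 * p.eval n + 1 + n)) := by
      intro n
      simp [R, Polynomial.eval_comp]
    obtain ⟨n, h1, h2⟩ := ((poly_lt (2 * R ^ 2 + 1) (c := 1) one_pos).and
      (eventually_ge_atTop K)).exists
    obtain ⟨g, hg⟩ := ma_fail M p n B (by
      rw [← hR]
      rw [one_mul, Polynomial.eval_add, Polynomial.eval_mul, Polynomial.eval_pow] at h1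
      simp only [Polynomial.eval_ofNat, Polynomial.eval_one] at h1
      push_cast at h1
      linarith)
    exact ⟨_, (plant_agree B g).mono h2, n, hg⟩

theorem residual_sbp (M : Alg) (p q : Polynomial ℕ) {ε : ℝ} (hε : 0 < ε) :
    {A : Oracle | ∃ n : ℕ, ¬ CorrSBP M p q ε A (x0 n)} ∈ residual Oracle := by
  refine residual_of_dense_open ?_ (dense_of fun B K => ?_)
  · have h1 : {A : Oracle | ∃ n : ℕ, ¬ CorrSBP M p q ε A (x0 n)} =
        ⋃ n : ℕ, {A : Oracle | ¬ CorrSBP M p q ε A (x0 n)} := by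
      ext A
      simp
    rw [h1]
    exact isOpen_iUnion fun n => isOpen_corrSBP M p q ε (x0 n)
  · let R : Polynomial ℕ := M.p.comp (2 * p + 1 + Polynomial.X)
    have hR : ∀ n, R.eval n = M.p.eval (2 * p.eval n + 1 + n) := by
      intro n
      simp [R, Polynomial.eval_comp]
    have hc : 0 < min 1 (2 * ε / (1 + ε)) := by positivity
    obtain ⟨n, h1, h2⟩ := ((poly_lt (R ^ 2 + 2) hc).and (eventually_ge_atTop K)).exists
    rw [Polynomial.eval_add, Polynomial.eval_pow, Polynomial.eval_ofNat] at h1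
    push_cast at h1
    have h0 : (0 : ℝ) < 2 ^ n := by positivity
    have h3 : ((R.eval n : ℕ) : ℝ) ^ 2 + 2 < 2 ^ n := by
      refine h1.trans_le ?_
      calc min 1 (2 * ε / (1 + ε)) * 2 ^ n ≤ 1 * 2 ^ n :=
            mul_le_mul_of_nonneg_right (min_le_left _ _) h0.le
        _ = 2 ^ n := one_mul _
    have h4 : (((R.eval n : ℕ) : ℝ) ^ 2 + 2) * (1 + ε) < 2 * ε * 2 ^ n := by
      have h5 : ((R.eval n : ℕ) : ℝ) ^ 2 + 2 < 2 * ε / (1 + ε) * 2 ^ n :=
        h1.trans_le (mul_le_mul_of_nonneg_right (min_le_right _ _) h0.le)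
      have h6 := mul_lt_mul_of_pos_right h5 (show 0 < 1 + ε by linarith)
      refine h6.trans_le (le_of_eq ?_)
      field_simp
    obtain ⟨g, hg⟩ := sbp_fail M p q hε n B (by
      rw [← hR]
      nlinarith) (by
      rw [← hR]
      linarith)
    exact ⟨_, (plant_agree B g).mono h2, n, hg⟩

theorem residual_all : {A : Oracle | ¬ IsMA A (LL A) ∧ ¬ IsSBP A (LL A)} ∈ residual Oracle := by
  have h1 : Countable (Polynomial ℕ) := CC.poly_countable
  have hMA : ∀ᶠ A in residual Oracle, ∀ (M : Alg) (p : Polynomial ℕ),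
      ∃ n : ℕ, ¬ CorrMA M p A (x0 n) := by
    rw [eventually_countable_forall]
    intro M
    rw [eventually_countable_forall]
    exact fun p => residual_ma M p
  have hSBP : ∀ᶠ A in residual Oracle, ∀ (M : Alg) (p q : Polynomial ℕ) (k : ℕ),
      ∃ n : ℕ, ¬ CorrSBP M p q (1 / ((k : ℝ) + 1)) A (x0 n) := by
    rw [eventually_countable_forall]
    intro M
    rw [eventually_countable_forall]
    intro p
    rw [eventually_countable_forall]
    intro q
    rw [eventually_countable_forall]
    exact fun k => residual_sbp M p q (by positivity)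
  filter_upwards [hMA, hSBP] with A h2 h3
  refine ⟨?_, ?_⟩
  · rintro ⟨V, p, ⟨M, hM⟩, hV⟩
    obtain ⟨n, hn⟩ := h2 M p
    apply hn
    simp only [CorrMA, accM_eq hM]
    exact hV (x0 n)
  · rintro ⟨V, p, q, ε, ⟨M, hM⟩, hε, hV⟩
    obtain ⟨k, hk⟩ := exists_nat_one_div_lt hε
    obtain ⟨n, hn⟩ := h3 M p q k
    apply hn
    simp only [CorrSBP, accM_eq hM]
    have h4 : (0 : ℝ) < (1 / 2) ^ q.eval (x0 n).length := by positivity
    refine ⟨fun hx => le_trans ?_ ((hV (x0 n)).1 hx), fun hx => ((hV (x0 n)).2 hx).trans ?_⟩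
    · exact mul_le_mul_of_nonneg_right (by linarith) h4.le
    · exact mul_le_mul_of_nonneg_right (by linarith) h4.le

theorem amPr_iff (A : Oracle) (x : List Bool) :
    amPr (VV A) (p4.eval x.length) x = 1 ↔ x ∈ LL A := by
  unfold LL
  rw [Set.mem_ofPred_eq]
  constructor
  · intro h h1
    have := amPr_le A x h1
    linarith
  · exact amPr_eq_one A x

end Pool.Agent.W895.MA
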