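import Pool.Agent.W895.MA.Prot

/-!
# The lower bound for Merlin-Arthur games and `SBP`
-/

namespace Pool.Agent.W895.MA

open Pool.Agent.NPC Pool.Agent.H620R2.Gauge Finset

theorem pos_inj {i j : ℕ} {l l' : List Bool}
    (h : List.replicate i true ++ false :: l = List.replicate j true ++ false :: l') :
    i = j ∧ l = l' := by
  induction i generalizing j with
  | zero =>
    cases j with
    | zero => simpa using h
    | succ j => simp [List.replicate_succ] at h
  | succ i ih =>
    cases j with
    | zero => simp [List.replicate_succ] at h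
    | succ j =>
      simp only [List.replicate_succ, List.cons_append, List.cons.injEq, true_and] at h
      obtain ⟨h1, h2⟩ := ih h
      exact ⟨by rw [h1], h2⟩

/-- the string is the place of a bit of the table of level `n` -/
def IsPos (n : ℕ) (z : List Bool) : Prop :=
  ∃ p : Fin n × Vec n, z = List.replicate p.1 true ++ false :: List.ofFn p.2

open Classical in
/-- the oracle `B` with the table of level `n` replaced by `g` -/
noncomputable def plant (B : Oracle) (n : ℕ) (g : Vec n → Vec n) : Oracle := fun z =>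
  if h : IsPos n z then g h.choose.2 h.choose.1 else B z

theorem plant_pos (B : Oracle) {n : ℕ} (g : Vec n → Vec n) (i : Fin n) (u : Vec n) :
    plant B n g (List.replicate i true ++ false :: List.ofFn u) = g u i := by
  have h : IsPos n (List.replicate i true ++ false :: List.ofFn u) := ⟨(i, u), rfl⟩
  have h1 := pos_inj h.choose_spec
  have h2 : h.choose.1 = i := Fin.ext h1.1.symm
  have h3 : h.choose.2 = u := List.ofFn_injective h1.2.symm
  rw [plant, dif_pos h, h2, h3]

theorem plant_off (B : Oracle) {n : ℕ} (g : Vec n → Vec n) {z : List Bool} (h : ¬ IsPos n z) :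
    plant B n g z = B z := by
  rw [plant, dif_neg h]

theorem not_isPos {n : ℕ} {z : List Bool} (h : z.length ≤ n) : ¬ IsPos n z := by
  rintro ⟨⟨i, u⟩, rfl⟩
  simp at h
  omega

theorem tab_plant (B : Oracle) {n : ℕ} (g : Vec n → Vec n) : tab (plant B n g) n = g := by
  funext u i
  rw [tab, plant_pos]

theorem jsum_ask (B : Oracle) (n : ℕ) (z : List Bool) (b : Bool) :
    JSum 1 (fun g : Vec n → Vec n => if plant B n g z = b then (1 : ℝ) else 0) := by
  by_cases h : IsPos n z
  · obtain ⟨⟨i, u⟩, rfl⟩ := h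
    refine JSum.junta {u} _ (by simp) (fun g => by split_ifs <;> norm_num) fun g g' hg => ?_
    simp only [plant_pos]
    rw [hg u (Finset.mem_singleton_self u)]
  · refine JSum.junta ∅ _ (by simp) (fun g => by split_ifs <;> norm_num) fun g g' _ => ?_
    simp only [plant_off B _ h]

theorem jsum_run (M : Alg) (B : Oracle) (n : ℕ) (x : List Bool) : ∀ (k : ℕ) (a : List Bool),
    JSum k (fun g : Vec n → Vec n =>
      if M.run (plant B n g) x k a = some [true] then (1 : ℝ) else 0) := by
  intro k
  induction k with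
  | zero =>
    intro a
    exact (JSum.const (c := 0) le_rfl).congr fun g => by simp [Alg.run]
  | succ k ih =>
    intro a
    by_cases hc : (M.D (pairBits x a)).head? = some false
    · have h1 := ((jsum_ask B n (M.D (pairBits x a)).tail true).mul (ih (a ++ [true]))).add
        ((jsum_ask B n (M.D (pairBits x a)).tail false).mul (ih (a ++ [false])))
      rw [add_comm 1 k] at h1
      refine h1.congr fun g => ?_
      rw [A2.run_succ, if_pos hc]
      cases hA : plant B n g (M.D (pairBits x a)).tail <;> simp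
    · by_cases h2 : (M.D (pairBits x a)).tail = [true]
      · exact (JSum.const (c := 1) zero_le_one).congr fun g => by
          rw [A2.run_succ, if_neg hc, h2, if_pos rfl]
      · exact (JSum.const (c := 0) le_rfl).congr fun g => by
          rw [A2.run_succ, if_neg hc, if_neg (by simpa using h2)]

/-- the acceptance probability of an algorithm -/
noncomputable def accM (M : Alg) (A : Oracle) (m : ℕ) (z : List Bool) : ℝ :=
  (∑ w : Fin m → Bool, if M.out A (pairBits (List.ofFn w) z) = some [true] then (1 : ℝ) else 0) /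
    2 ^ m

theorem accM_eq {M : Alg} {A : Oracle} {V : List Bool → List Bool}
    (h : ∀ x, M.out A x = some (V x)) (m : ℕ) (z : List Bool) : accM M A m z = accPr V m z := by
  classical
  unfold accM accPr
  congr 1
  rw [Nat.card_eq_fintype_card, Fintype.card_subtype, Finset.sum_boole]
  simp only [h, Option.some.injEq]

theorem accM_nonneg (M : Alg) (A : Oracle) (m : ℕ) (z : List Bool) : 0 ≤ accM M A m z := by
  unfold accM
  refine div_nonneg (Finset.sum_nonneg fun w _ => ?_) (by positivity)
  split_ifs <;> norm_num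

theorem jsum_accM (M : Alg) (B : Oracle) (n m : ℕ) (z : List Bool) :
    JSum (M.p.eval (2 * m + 1 + z.length)) (fun g : Vec n → Vec n => accM M (plant B n g) m z) := by
  have h1 : JSum (M.p.eval (2 * m + 1 + z.length)) (fun g : Vec n → Vec n =>
      ∑ w : Fin m → Bool,
        if M.out (plant B n g) (pairBits (List.ofFn w) z) = some [true] then (1 : ℝ) else 0) := by
    refine JSum.sum _ _ fun w _ => ?_
    have h2 := jsum_run M B n (pairBits (List.ofFn w) z)
      (M.p.eval (pairBits (List.ofFn w) z).length) []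
    have h3 : (pairBits (List.ofFn w) z).length = 2 * m + 1 + z.length := by
      rw [length_pairBits, List.length_ofFn]
    rw [h3] at h2
    refine h2.congr fun g => ?_
    rw [Alg.out, h3]
  refine (h1.smul (c := 1 / 2 ^ m) (by positivity)).congr fun g => ?_
  unfold accM
  ring

/-- the language of the game -/
def LL (A : Oracle) : Set (List Bool) := {x | ¬ IsShift (tab A x.length)}

/-- the string of `n` zeros -/
def x0 (n : ℕ) : List Bool := List.replicate n false

theorem x0_length (n : ℕ) : (x0 n).length = n := by simp [x0]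

theorem mem_LL_x0 (B : Oracle) {n : ℕ} (g : Vec n → Vec n) :
    x0 n ∈ LL (plant B n g) ↔ ¬ IsShift g := by
  unfold LL
  rw [Set.mem_ofPred_eq, x0_length, tab_plant]

theorem not_isShift_perm {n : ℕ} (π : Equiv.Perm (Vec n)) : ¬ IsShift (π : Vec n → Vec n) := by
  rintro ⟨s, hs, h⟩
  apply hs
  have h1 := (h 0 (0 + s)).2 (Or.inr rfl)
  have h2 := π.injective h1
  rw [zero_add] at h2
  exact h2.symm

/-- the game given by the algorithm `M` and the polynomial `p` is correct at `x` -/
def CorrMA (M : Alg) (p : Polynomial ℕ) (A : Oracle) (x : List Bool) : Prop :=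
  (x ∈ LL A → ∃ y : List Bool, y.length ≤ p.eval x.length ∧
    2 / 3 ≤ accM M A (p.eval x.length) (pairBits y x)) ∧
  (x ∉ LL A → ∀ y : List Bool, y.length ≤ p.eval x.length →
    accM M A (p.eval x.length) (pairBits y x) ≤ 1 / 3)

/-- correctness for `SBP` -/
def CorrSBP (M : Alg) (p q : Polynomial ℕ) (ε : ℝ) (A : Oracle) (x : List Bool) : Prop :=
  (x ∈ LL A → (1 + ε) * (1 / 2) ^ q.eval x.length ≤ accM M A (p.eval x.length) x) ∧
  (x ∉ LL A → accM M A (p.eval x.length) x ≤ (1 - ε) * (1 / 2) ^ q.eval x.length)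

theorem card_vec (n : ℕ) : (Fintype.card (Vec n) : ℝ) = 2 ^ n := by simp

theorem sbp_fail (M : Alg) (p q : Polynomial ℕ) {ε : ℝ} (hε : 0 < ε) (n : ℕ) (B : Oracle)
    (hn : ((M.p.eval (2 * p.eval n + 1 + n) : ℕ) : ℝ) ^ 2 * (1 + ε) < 2 * ε * (2 ^ n - 1))
    (hn' : ((M.p.eval (2 * p.eval n + 1 + n) : ℕ) : ℝ) ^ 2 ≤ 2 ^ n - 1) :
    ∃ g : Vec n → Vec n, ¬ CorrSBP M p q ε (plant B n g) (x0 n) := by
  by_contra hcon
  push Not at hcon
  have h1 := jsum_accM M B n (p.eval n) (x0 n)
  rw [x0_length] at h1
  have h2 := h1.main (vec_add_self) (a := (1 + ε) * (1 / 2) ^ q.eval n)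
    (b := (1 - ε) * (1 / 2) ^ q.eval n) (fun π => by
      have := (hcon π).1 (by rw [mem_LL_x0]; exact not_isShift_perm π)
      rwa [x0_length] at this) (fun g hg => by
      have := (hcon g).2 (by rw [mem_LL_x0]; exact fun h => h hg)
      rwa [x0_length] at this) (by rw [card_vec]; exact hn')
  rw [card_vec] at h2
  have h3 : (0 : ℝ) < (1 / 2) ^ q.eval n := by positivity
  have h4 : (((2 : ℝ) ^ n - 1 - ((M.p.eval (2 * p.eval n + 1 + n) : ℕ) : ℝ) ^ 2) * (1 + ε)) *
      (1 / 2) ^ q.eval n ≤ (((2 : ℝ) ^ n - 1) * (1 - ε)) * (1 / 2) ^ q.eval n := by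
    linarith
  have h5 := le_of_mul_le_mul_right h4 h3
  linarith

theorem ma_fail (M : Alg) (p : Polynomial ℕ) (n : ℕ) (B : Oracle)
    (hn : 2 * ((((p.eval n + 2) * M.p.eval (2 * p.eval n + 1 + (2 * p.eval n + 1 + n))) : ℕ) :
      ℝ) ^ 2 < 2 ^ n - 1) :
    ∃ g : Vec n → Vec n, ¬ CorrMA M p (plant B n g) (x0 n) := by
  classical
  by_contra hcon
  push Not at hcon
  set m := p.eval n with hm
  set D := M.p.eval (2 * m + 1 + (2 * m + 1 + n)) with hD
  let H : (Vec n → Vec n) → ℝ := fun g => ∑ l ∈ Finset.range (m + 1), ∑ y : Fin l → Bool,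
    accM M (plant B n g) m (pairBits (List.ofFn y) (x0 n)) ^ (m + 2)
  have hH : JSum ((m + 2) * D) H := by
    refine JSum.sum _ _ fun l hl => JSum.sum _ _ fun y _ => ?_
    have h1 := jsum_accM M B n m (pairBits (List.ofFn y) (x0 n))
    refine (h1.mono ?_).pow (m + 2)
    rw [hD]
    apply eval_mono
    rw [length_pairBits, List.length_ofFn, x0_length]
    rw [Finset.mem_range] at hl
    omega
  have ha : ∀ π : Equiv.Perm (Vec n), ((2 : ℝ) / 3) ^ (m + 2) ≤ H π := by
    intro π
    obtain ⟨y, hy, h1⟩ := (hcon π).1 (by rw [mem_LL_x0]; exact not_isShift_perm π)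
    rw [x0_length, ← hm] at hy h1
    have h2 : ((2 : ℝ) / 3) ^ (m + 2) ≤ accM M (plant B n π) m
        (pairBits (List.ofFn (fun i : Fin y.length => y[i])) (x0 n)) ^ (m + 2) := by
      have : List.ofFn (fun i : Fin y.length => y[i]) = y := by simp
      rw [this]
      exact pow_le_pow_left₀ (by norm_num) h1 _
    refine h2.trans ?_
    have h3 : accM M (plant B n π) m
        (pairBits (List.ofFn (fun i : Fin y.length => y[i])) (x0 n)) ^ (m + 2) ≤
        ∑ y' : Fin y.length → Bool,
          accM M (plant B n π) m (pairBits (List.ofFn y') (x0 n)) ^ (m + 2) :=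
      Finset.single_le_sum (f := fun y' : Fin y.length → Bool =>
        accM M (plant B n π) m (pairBits (List.ofFn y') (x0 n)) ^ (m + 2))
        (fun y' _ => pow_nonneg (accM_nonneg _ _ _ _) _) (Finset.mem_univ _)
    refine h3.trans ?_
    exact Finset.single_le_sum (f := fun l => ∑ y' : Fin l → Bool,
        accM M (plant B n π) m (pairBits (List.ofFn y') (x0 n)) ^ (m + 2))
        (fun l _ => Finset.sum_nonneg fun y' _ => pow_nonneg (accM_nonneg _ _ _ _) _)
        (Finset.mem_range.2 (Nat.lt_succ_of_le hy))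
  have hb : ∀ g : Vec n → Vec n, IsShift g → H g ≤ 2 ^ (m + 1) * ((1 : ℝ) / 3) ^ (m + 2) := by
    intro g hg
    have h1 := (hcon g).2 (by rw [mem_LL_x0]; exact fun h => h hg)
    rw [x0_length, ← hm] at h1
    have h2 : ∀ l ∈ Finset.range (m + 1), ∑ y : Fin l → Bool,
        accM M (plant B n g) m (pairBits (List.ofFn y) (x0 n)) ^ (m + 2) ≤
        2 ^ l * ((1 : ℝ) / 3) ^ (m + 2) := by
      intro l hl
      rw [Finset.mem_range] at hl
      have := Finset.sum_le_card_nsmul (Finset.univ : Finset (Fin l → Bool))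
        (fun y => accM M (plant B n g) m (pairBits (List.ofFn y) (x0 n)) ^ (m + 2))
        (((1 : ℝ) / 3) ^ (m + 2)) (fun y _ => pow_le_pow_left₀ (accM_nonneg _ _ _ _)
          (h1 _ (by rw [List.length_ofFn]; omega)) _)
      rw [nsmul_eq_mul] at this
      simpa using this
    refine (Finset.sum_le_sum h2).trans ?_
    rw [← Finset.sum_mul]
    refine mul_le_mul_of_nonneg_right ?_ (by positivity)
    have h3 := geom_sum_eq (x := (2 : ℝ)) (by norm_num) (m + 1)
    rw [h3]
    linarith
  have hD2 : ((((m + 2) * D : ℕ)) : ℝ) ^ 2 ≤ (Fintype.card (Vec n) : ℝ) - 1 := by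
    rw [card_vec]
    have : (0 : ℝ) ≤ ((((m + 2) * D : ℕ)) : ℝ) ^ 2 := by positivity
    linarith
  have h2 := hH.main vec_add_self ha hb hD2
  rw [card_vec] at h2
  have h3 : (0 : ℝ) < 2 ^ (m + 1) * (1 / 3) ^ (m + 2) := by positivity
  have h4 : ((2 : ℝ) / 3) ^ (m + 2) = 2 * (2 ^ (m + 1) * (1 / 3) ^ (m + 2)) := by
    rw [div_eq_mul_one_div, mul_pow, pow_succ 2 (m + 1)]
    ring
  rw [h4] at h2
  have h5 : (2 * ((2 : ℝ) ^ n - 1 - ((((m + 2) * D : ℕ)) : ℝ) ^ 2)) *
      (2 ^ (m + 1) * (1 / 3) ^ (m + 2)) ≤ (2 ^ n - 1) * (2 ^ (m + 1) * (1 / 3) ^ (m + 2)) := by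
    linarith
  have h6 := le_of_mul_le_mul_right h5 h3
  linarith

end Pool.Agent.W895.MA
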