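import Pool.Agent.W895.MA.Core
import Pool.Agent.W895.MA.Defs
import Pool.Agent.H620R2.Gauge.A1
import Pool.Agent.H620R2.Gauge.A2

/-!
# The Arthur-Merlin game

The oracle `A` gives functions `tab A n` from the bit vectors of length `n` to themselves. Arthur
sends four random vectors. Merlin answers with four vectors `u 0, u 1, u 2, u 3` of one of two
kinds: the preimages of Arthur's vectors, or a proof that `tab A n` is not injective and not a
shift function.
-/

namespace Pool.Agent.W895.MA

open Pool.Agent.NPC Pool.Agent.H620R2.Gauge Finset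

/-- The function on bit vectors of length `n` given by the oracle. -/
def tab (A : Oracle) (n : ℕ) (u : Fin n → Bool) : Fin n → Bool :=
  fun i => A (List.replicate i true ++ false :: List.ofFn u)

/-- the block number `j` of length `n` -/
def blk (y : List Bool) (n j : ℕ) : List Bool :=
  (List.range n).map (fun i => y.getD (j * n + i) false)

/-- the sum of the first three blocks -/
def xblk (y : List Bool) (n : ℕ) : List Bool :=
  (List.range n).map (fun i =>
    xor (y.getD (2 * n + i) false) (xor (y.getD (0 * n + i) false) (y.getD (1 * n + i) false)))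

/-- the questions for the value at `u` -/
def qs (n : ℕ) (u : List Bool) : List (List Bool) :=
  (List.range n).map (fun i => List.replicate i true ++ false :: u)

/-- the questions, for the message `y` and the length `n` -/
def qq (y : List Bool) (n : ℕ) : List (List Bool) :=
  qs n (blk y n 0) ++ (qs n (blk y n 1) ++ (qs n (blk y n 2) ++ qs n (blk y n 3)))

/-- the decision -/
def dec (w y a : List Bool) (n : ℕ) : Bool :=
  decide (y.length = 4 * n) && (decide (a = w) ||
    (!decide (blk y n 0 = blk y n 1) && (decide (blk a n 0 = blk a n 1) &&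
      Bool.xor (decide (blk a n 2 = blk a n 3))
        (decide (blk y n 3 = blk y n 2) || decide (blk y n 3 = xblk y n)))))

/-- the questions on input `z` -/
def Qv (z : List Bool) : List (List Bool) :=
  qq (unpair (unpair z).2).1 (unpair (unpair z).2).2.length

/-- the decision on input `z` with the answers `a` -/
def Hv (p : List Bool × List Bool) : List Bool :=
  [dec (unpair p.1).1 (unpair (unpair p.1).2).1 p.2 (unpair (unpair p.1).2).2.length]

section poly

variable {α : Type} [TEnc α]

theorem poly_blk {y : α → List Bool} {n : α → ℕ} (hy : Poly y) (hn : UPoly n) (j : ℕ) :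
    Poly (fun a => blk (y a) (n a) j) :=
  NPC.Poly.map (F := fun a i => (y a).getD (j * n a + i) false) hn.range
    (Poly.getD (hy.comp (Poly.fst Poly.id))
      (Poly.add (Poly.mul (NPC.Poly.const j) (hn.toPoly.comp (Poly.fst Poly.id)))
        (Poly.snd Poly.id)) (NPC.Poly.const false))

theorem poly_xblk {y : α → List Bool} {n : α → ℕ} (hy : Poly y) (hn : UPoly n) :
    Poly (fun a => xblk (y a) (n a)) := by
  have h : ∀ j : ℕ, Poly (fun p : α × ℕ => (y p.1).getD (j * n p.1 + p.2) false) := fun j =>
    Poly.getD (hy.comp (Poly.fst Poly.id))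
      (Poly.add (Poly.mul (NPC.Poly.const j) (hn.toPoly.comp (Poly.fst Poly.id)))
        (Poly.snd Poly.id)) (NPC.Poly.const false)
  exact NPC.Poly.map (F := fun a i => xor ((y a).getD (2 * n a + i) false)
    (xor ((y a).getD (0 * n a + i) false) ((y a).getD (1 * n a + i) false))) hn.range
    (Poly.xor (h 2) (Poly.xor (h 0) (h 1)))

theorem poly_rep {n : α → ℕ} (hn : UPoly n) :
    Poly (fun a => List.replicate (n a) true) :=
  (NPC.Poly.map (F := fun _ _ => true) hn (NPC.Poly.const true)).congr fun a => by simp

theorem poly_qs {u : α → List Bool} {n : α → ℕ} (hu : Poly u) (hn : UPoly n) :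
    Poly (fun a => qs (n a) (u a)) := by
  have h2 : Poly (fun p : α × ℕ => List.replicate (min p.2 (n p.1)) true) := by
    refine poly_rep (UPoly.of_le (Poly.min (Poly.snd Poly.id)
      (hn.toPoly.comp (Poly.fst Poly.id))) (hn.comp (Poly.fst Poly.id)) fun p => min_le_right _ _)
  refine (NPC.Poly.map (F := fun a i => List.replicate (min i (n a)) true ++ false :: u a) hn.range
    (Poly.append h2 (Poly.cons (NPC.Poly.const false) (hu.comp (Poly.fst Poly.id))))).congr ?_
  intro a
  refine List.map_congr_left fun i hi => ?_
  rw [List.mem_range] at hi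
  rw [min_eq_left hi.le]

theorem poly_Qv : Poly Qv := by
  have hy : Poly (fun z : List Bool => (unpair (unpair z).2).1) :=
    Poly.fst (poly_unpair.comp (Poly.snd poly_unpair))
  have hn : UPoly (fun z : List Bool => (unpair (unpair z).2).2.length) :=
    UPoly.length (Poly.snd (poly_unpair.comp (Poly.snd poly_unpair)))
  exact Poly.append (poly_qs (poly_blk hy hn 0) hn) (Poly.append (poly_qs (poly_blk hy hn 1) hn)
    (Poly.append (poly_qs (poly_blk hy hn 2) hn) (poly_qs (poly_blk hy hn 3) hn)))

theorem poly_Hv : Poly Hv := by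
  have hz : Poly (fun p : List Bool × List Bool => unpair p.1) :=
    poly_unpair.comp (Poly.fst Poly.id)
  have hw : Poly (fun p : List Bool × List Bool => (unpair p.1).1) := Poly.fst hz
  have hyx : Poly (fun p : List Bool × List Bool => unpair (unpair p.1).2) :=
    poly_unpair.comp (Poly.snd hz)
  have hy : Poly (fun p : List Bool × List Bool => (unpair (unpair p.1).2).1) := Poly.fst hyx
  have hn : UPoly (fun p : List Bool × List Bool => (unpair (unpair p.1).2).2.length) :=
    UPoly.length (Poly.snd hyx)
  have ha : Poly (fun p : List Bool × List Bool => p.2) := Poly.snd Poly.id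
  refine Poly.cons ?_ (NPC.Poly.const [])
  refine Poly.and (Poly.decide_eq (Poly.length hy) (Poly.mul (NPC.Poly.const 4) hn.toPoly)) ?_
  refine Poly.or (Poly.decide_eq ha hw) ?_
  refine Poly.and (Poly.not (Poly.decide_eq (poly_blk hy hn 0) (poly_blk hy hn 1))) ?_
  refine Poly.and (Poly.decide_eq (poly_blk ha hn 0) (poly_blk ha hn 1)) ?_
  exact Poly.xor (Poly.decide_eq (poly_blk ha hn 2) (poly_blk ha hn 3))
    (Poly.or (Poly.decide_eq (poly_blk hy hn 3) (poly_blk hy hn 2))
      (Poly.decide_eq (poly_blk hy hn 3) (poly_xblk hy hn)))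

end poly

/-- a nonadaptive algorithm, the same for all oracles -/
theorem tt_uniform {Q : List Bool → List (List Bool)} {H : List Bool × List Bool → List Bool}
    (hQ : Poly Q) (hH : Poly H) :
    ∃ M : Alg, ∀ (A : Oracle) (x : List Bool), M.out A x = some (H (x, (Q x).map A)) := by
  obtain ⟨q, hq⟩ := hQ.sz_le
  refine ⟨A2.ttAlg hQ hH (q.comp (Polynomial.C 4 * Polynomial.X + Polynomial.C 1)),
    fun A x => ?_⟩
  have h1 := length_lt_sz (Q x)
  have h2 : (Q x).length + 1 ≤
      (q.comp (Polynomial.C 4 * Polynomial.X + Polynomial.C 1)).eval x.length :=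
    A2.sz_eval_le (h1.trans_le (hq x))
  have h3 := A2.tt_run hQ hH (q.comp (Polynomial.C 4 * Polynomial.X + Polynomial.C 1)) A x
    ((q.comp (Polynomial.C 4 * Polynomial.X + Polynomial.C 1)).eval x.length) 0 (Nat.zero_le _)
    (by omega)
  exact h3

/-- the verifier of the game, relative to `A` -/
def VV (A : Oracle) (z : List Bool) : List Bool := Hv (z, (Qv z).map A)

theorem exists_alg : ∃ M : Alg, ∀ (A : Oracle) (x : List Bool), M.out A x = some (VV A x) :=
  tt_uniform poly_Qv poly_Hv

end Pool.Agent.W895.MA
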