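import Pool.Agent.W895.MA.Mach

/-!
# The Arthur-Merlin game is correct relative to every oracle
-/

namespace Pool.Agent.W895.MA

open Pool.Agent.NPC Pool.Agent.H620R2.Gauge Finset

/-- bit vectors -/
abbrev Vec (n : ℕ) : Type := Fin n → Bool

theorem vec_add_self {n : ℕ} (x : Vec n) : x + x = 0 := by
  funext i
  change xor (x i) (x i) = false
  simp

/-- the block number `j` as a vector -/
def vec (y : List Bool) (n j : ℕ) : Vec n := fun i => y.getD (j * n + i) false

theorem map_range_eq {β : Type} (n : ℕ) (f : ℕ → β) :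
    (List.range n).map f = List.ofFn (fun i : Fin n => f i) := by
  apply List.ext_getElem
  · simp
  · intro i h1 h2
    simp

theorem blk_eq (y : List Bool) (n j : ℕ) : blk y n j = List.ofFn (vec y n j) :=
  map_range_eq n _

theorem xblk_eq (y : List Bool) (n : ℕ) :
    xblk y n = List.ofFn (vec y n 2 + (vec y n 0 + vec y n 1)) :=
  map_range_eq n _

theorem map_qs (A : Oracle) (n : ℕ) (u : Vec n) :
    (qs n (List.ofFn u)).map A = List.ofFn (tab A n u) := by
  rw [qs, List.map_map, map_range_eq]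
  rfl

theorem length_blk (y : List Bool) (n j : ℕ) : (blk y n j).length = n := by simp [blk]

theorem blk_append {n : ℕ} (a0 a1 a2 a3 : Vec n) :
    blk (List.ofFn a0 ++ (List.ofFn a1 ++ (List.ofFn a2 ++ List.ofFn a3))) n 0 = List.ofFn a0 ∧
    blk (List.ofFn a0 ++ (List.ofFn a1 ++ (List.ofFn a2 ++ List.ofFn a3))) n 1 = List.ofFn a1 ∧
    blk (List.ofFn a0 ++ (List.ofFn a1 ++ (List.ofFn a2 ++ List.ofFn a3))) n 2 = List.ofFn a2 ∧
    blk (List.ofFn a0 ++ (List.ofFn a1 ++ (List.ofFn a2 ++ List.ofFn a3))) n 3 = List.ofFn a3 := by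
  simp only [blk_eq, List.ofFn_inj]
  refine ⟨?_, ?_, ?_, ?_⟩
  · funext i
    have := i.2
    simp [vec, List.getD_eq_getElem?_getD, List.getElem?_append]
  · funext i
    have := i.2
    simp [vec, List.getD_eq_getElem?_getD, List.getElem?_append]
  · funext i
    have := i.2
    have h1 : ¬ (2 * n + (i : ℕ) < n) := by omega
    have h2 : ¬ (2 * n + (i : ℕ) - n < n) := by omega
    have h3 : 2 * n + (i : ℕ) - n - n = i := by omega
    simp [vec, List.getD_eq_getElem?_getD, List.getElem?_append, h1, h2, h3]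
  · funext i
    have := i.2
    have h1 : ¬ (3 * n + (i : ℕ) < n) := by omega
    have h2 : ¬ (3 * n + (i : ℕ) - n < n) := by omega
    have h4 : ¬ (3 * n + (i : ℕ) - n - n < n) := by omega
    have h3 : 3 * n + (i : ℕ) - n - n - n = i := by omega
    simp [vec, List.getD_eq_getElem?_getD, List.getElem?_append, h1, h2, h3, h4]

theorem blk_ext {a b : List Bool} {n : ℕ} (ha : a.length = 4 * n) (hb : b.length = 4 * n)
    (h : ∀ j < 4, vec a n j = vec b n j) : a = b := by
  apply List.ext_getElem (by rw [ha, hb])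
  intro t h1 h2
  rw [ha] at h1
  have hn : 0 < n := by
    rcases Nat.eq_zero_or_pos n with h0 | h0
    · subst h0; omega
    · exact h0
  have hj : t / n < 4 := Nat.div_lt_of_lt_mul (by rw [mul_comm]; exact h1)
  have hi : t % n < n := Nat.mod_lt _ hn
  have h3 := congrFun (h (t / n) hj) ⟨t % n, hi⟩
  have h4 : t / n * n + t % n = t := Nat.div_add_mod' t n
  simp only [vec, h4] at h3
  have e1 : a.getD t false = a[t] := by
    rw [List.getD_eq_getElem?_getD, List.getElem?_eq_getElem (by rw [ha]; exact h1)]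
    rfl
  have e2 : b.getD t false = b[t] := by
    rw [List.getD_eq_getElem?_getD, List.getElem?_eq_getElem (by rw [hb]; exact h1)]
    rfl
  rw [← e1, ← e2, h3]

/-- extend a vector by zeros -/
def ext {n : ℕ} (v : Vec n) (i : ℕ) : Bool := if h : i < n then v ⟨i, h⟩ else false

theorem exists_msg {n : ℕ} (u : ℕ → Vec n) :
    ∃ y : List Bool, y.length = 4 * n ∧ ∀ j < 4, vec y n j = u j := by
  refine ⟨(List.range (4 * n)).map (fun t => ext (u (t / n)) (t % n)), by simp, ?_⟩
  intro j hj
  funext i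
  have hi := i.2
  have hn : 0 < n := by omega
  have h1 : j * n + i < 4 * n := by nlinarith
  have h2 : (j * n + i) / n = j := by
    rw [mul_comm, Nat.mul_add_div hn, Nat.div_eq_of_lt hi]
    simp
  have h3 : (j * n + i) % n = i := by
    rw [mul_comm, Nat.mul_add_mod, Nat.mod_eq_of_lt hi]
  simp only [vec]
  rw [List.getD_eq_getElem?_getD, List.getElem?_eq_getElem (by simpa using h1)]
  simp [h2, h3, ext]

/-- the answers -/
def ans (A : Oracle) (y : List Bool) (n : ℕ) : List Bool := (qq y n).map A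

theorem ans_eq (A : Oracle) (y : List Bool) (n : ℕ) : ans A y n =
    List.ofFn (tab A n (vec y n 0)) ++ (List.ofFn (tab A n (vec y n 1)) ++
      (List.ofFn (tab A n (vec y n 2)) ++ List.ofFn (tab A n (vec y n 3)))) := by
  rw [ans, qq]
  simp only [List.map_append, blk_eq, map_qs]

theorem length_ans (A : Oracle) (y : List Bool) (n : ℕ) : (ans A y n).length = 4 * n := by
  rw [ans_eq]
  simp
  ring

theorem vec_ans (A : Oracle) (y : List Bool) (n : ℕ) {j : ℕ} (hj : j < 4) :
    vec (ans A y n) n j = tab A n (vec y n j) := by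
  have h := blk_append (tab A n (vec y n 0)) (tab A n (vec y n 1)) (tab A n (vec y n 2))
    (tab A n (vec y n 3))
  rw [← ans_eq] at h
  simp only [blk_eq, List.ofFn_inj] at h
  interval_cases j
  · exact h.1
  · exact h.2.1
  · exact h.2.2.1
  · exact h.2.2.2

/-- the vectors prove that `g` is neither injective nor a shift function -/
def Proof {n : ℕ} (g : Vec n → Vec n) (v0 v1 v2 v3 : Vec n) : Prop :=
  v0 ≠ v1 ∧ g v0 = g v1 ∧ ¬ (g v2 = g v3 ↔ v3 = v2 ∨ v3 = v2 + (v0 + v1))

theorem dec_iff (A : Oracle) (w y : List Bool) (n : ℕ) :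
    dec w y (ans A y n) n = true ↔ y.length = 4 * n ∧ (ans A y n = w ∨
      Proof (tab A n) (vec y n 0) (vec y n 1) (vec y n 2) (vec y n 3)) := by
  have h : ∀ j < 4, blk (ans A y n) n j = List.ofFn (tab A n (vec y n j)) := fun j hj => by
    rw [blk_eq, vec_ans A y n hj]
  unfold dec Proof
  rw [h 0 (by norm_num), h 1 (by norm_num), h 2 (by norm_num), h 3 (by norm_num), xblk_eq]
  simp only [blk_eq, List.ofFn_inj, Bool.and_eq_true, Bool.or_eq_true, decide_eq_true_eq,
    Bool.not_eq_true', decide_eq_false_iff_not, ne_eq]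
  refine and_congr Iff.rfl (or_congr Iff.rfl (and_congr Iff.rfl (and_congr Iff.rfl ?_)))
  by_cases h1 : tab A n (vec y n 2) = tab A n (vec y n 3) <;>
    by_cases h2 : vec y n 3 = vec y n 2 <;>
    by_cases h3 : vec y n 3 = vec y n 2 + (vec y n 0 + vec y n 1) <;>
    simp [h1, h2, h3]

theorem VV_iff (A : Oracle) (w y x : List Bool) :
    VV A (pairBits w (pairBits y x)) = [true] ↔ y.length = 4 * x.length ∧
      (ans A y x.length = w ∨ Proof (tab A x.length) (vec y x.length 0) (vec y x.length 1)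
        (vec y x.length 2) (vec y x.length 3)) := by
  rw [← dec_iff, VV, Hv, Qv]
  simp only [unpair_pairBits]
  rw [← ans, List.cons.injEq]
  simp

theorem exists_proof {n : ℕ} {g : Vec n → Vec n} (h : ¬ IsShift g)
    (hi : ¬ Function.Injective g) : ∃ u : ℕ → Vec n, Proof g (u 0) (u 1) (u 2) (u 3) := by
  rw [Function.Injective] at hi
  push Not at hi
  obtain ⟨v0, v1, he, hne⟩ := hi
  have h1 : ¬ ∀ u v, g u = g v ↔ v = u ∨ v = u + (v0 + v1) := by
    intro h2
    refine h ⟨v0 + v1, ?_, h2⟩
    intro h3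
    apply hne
    have h4 : v0 + v1 + v1 = v1 := by rw [h3, zero_add]
    rwa [add_assoc, vec_add_self, add_zero] at h4
  push Not at h1
  obtain ⟨v2, v3, h2⟩ := h1
  refine ⟨fun j => if j = 0 then v0 else if j = 1 then v1 else if j = 2 then v2 else v3, ?_⟩
  simp only [if_true, if_false, one_ne_zero, OfNat.ofNat_ne_zero, OfNat.ofNat_ne_one,
    Nat.reduceEqDiff]
  refine ⟨hne, he, ?_⟩
  rcases h2 with ⟨h3, h4⟩ | ⟨h3, h4⟩
  · intro h5
    exact absurd (h5.1 h3) (by tauto)
  · intro h5
    exact h3 (h5.2 h4)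

theorem not_proof {n : ℕ} {g : Vec n → Vec n} (h : IsShift g) (v0 v1 v2 v3 : Vec n) :
    ¬ Proof g v0 v1 v2 v3 := by
  rintro ⟨h1, h2, h3⟩
  obtain ⟨s, hs, h4⟩ := h
  apply h3
  have h5 : v1 = v0 + s := by
    rcases (h4 v0 v1).1 h2 with h5 | h5
    · exact absurd h5.symm h1
    · exact h5
  have h6 : v0 + v1 = s := by rw [h5, ← add_assoc, vec_add_self, zero_add]
  rw [h6]
  exact h4 v2 v3

/-- the polynomial `4 X` -/
noncomputable def p4 : Polynomial ℕ := Polynomial.C 4 * Polynomial.X

theorem p4_eval (n : ℕ) : p4.eval n = 4 * n := by simp [p4]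

theorem amPr_eq_one (A : Oracle) (x : List Bool) (h : ¬ IsShift (tab A x.length)) :
    amPr (VV A) (p4.eval x.length) x = 1 := by
  rw [p4_eval]
  set n := x.length with hn
  have key : ∀ w : Fin (4 * n) → Bool, ∃ y : List Bool, y.length ≤ 4 * n ∧
      VV A (pairBits (List.ofFn w) (pairBits y x)) = [true] := by
    intro w
    by_cases hi : Function.Injective (tab A n)
    · have hs : Function.Surjective (tab A n) := Finite.surjective_of_injective hi
      choose pre hpre using hs
      obtain ⟨y, hy, hv⟩ := exists_msg (fun j => pre (vec (List.ofFn w) n j))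
      refine ⟨y, hy.le, ?_⟩
      rw [VV_iff, ← hn]
      refine ⟨hy, Or.inl (blk_ext (length_ans _ _ _) (by simp) fun j hj => ?_)⟩
      rw [vec_ans A y n hj, hv j hj, hpre]
    · obtain ⟨u, hu⟩ := exists_proof h hi
      obtain ⟨y, hy, hv⟩ := exists_msg u
      refine ⟨y, hy.le, ?_⟩
      rw [VV_iff, ← hn]
      refine ⟨hy, Or.inr ?_⟩
      rw [hv 0 (by norm_num), hv 1 (by norm_num), hv 2 (by norm_num), hv 3 (by norm_num)]
      exact hu
  unfold amPr
  have h1 : Nat.card {w : Fin (4 * n) → Bool // ∃ y : List Bool, y.length ≤ 4 * n ∧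
      VV A (pairBits (List.ofFn w) (pairBits y x)) = [true]} = 2 ^ (4 * n) := by
    rw [Nat.card_congr (Equiv.subtypeUnivEquiv key)]
    simp
  rw [h1]
  simp

theorem card_image_le {n : ℕ} {g : Vec n → Vec n} (h : IsShift g) :
    2 * ((Finset.univ : Finset (Vec n)).image g).card ≤ 2 ^ n := by
  classical
  obtain ⟨s, hs, h4⟩ := h
  have h1 : ∀ b ∈ (Finset.univ : Finset (Vec n)).image g,
      2 ≤ ((Finset.univ : Finset (Vec n)).filter (fun u => g u = b)).card := by
    intro b hb
    obtain ⟨u, _, hu⟩ := Finset.mem_image.1 hb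
    have h2 : ({u, u + s} : Finset (Vec n)) ⊆
        (Finset.univ : Finset (Vec n)).filter (fun u => g u = b) := by
      intro v hv
      rw [Finset.mem_filter]
      refine ⟨Finset.mem_univ _, ?_⟩
      rw [← hu]
      rw [Finset.mem_insert, Finset.mem_singleton] at hv
      exact ((h4 u v).2 hv).symm
    have h3 : u ≠ u + s := fun h => hs (by
      have := congrArg (fun v => u + v) h
      simp only [← add_assoc, vec_add_self, zero_add] at this
      exact this.symm)
    rw [← Finset.card_pair h3]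
    exact Finset.card_le_card h2
  have h2 := Finset.card_eq_sum_card_image g (Finset.univ : Finset (Vec n))
  have h3 := Finset.card_nsmul_le_sum _ _ _ h1
  rw [← h2, Finset.card_univ] at h3
  simp only [smul_eq_mul, Fintype.card_pi, Fintype.card_bool, Finset.prod_const,
    Finset.card_univ, Fintype.card_fin] at h3
  omega

theorem amPr_le (A : Oracle) (x : List Bool) (h : IsShift (tab A x.length)) :
    amPr (VV A) (p4.eval x.length) x ≤ 1 / 16 := by
  classical
  rw [p4_eval]
  set n := x.length with hn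
  set I := (Finset.univ : Finset (Vec n)).image (tab A n) with hI
  have h0 := card_image_le h
  have h1 : Nat.card {w : Fin (4 * n) → Bool // ∃ y : List Bool, y.length ≤ 4 * n ∧
      VV A (pairBits (List.ofFn w) (pairBits y x)) = [true]} ≤ I.card ^ 4 := by
    have hmem : ∀ w : {w : Fin (4 * n) → Bool // ∃ y : List Bool, y.length ≤ 4 * n ∧
        VV A (pairBits (List.ofFn w) (pairBits y x)) = [true]}, ∀ j < 4,
        vec (List.ofFn w.1) n j ∈ I := by
      rintro ⟨w, y, hy, hV⟩ j hj
      rw [VV_iff, ← hn] at hV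
      rcases hV.2 with h2 | h2
      · rw [← h2, vec_ans A y n hj]
        exact Finset.mem_image_of_mem _ (Finset.mem_univ _)
      · exact absurd h2 (not_proof h _ _ _ _)
    have hcard : Nat.card (Fin 4 → I) = I.card ^ 4 := by
      rw [Nat.card_eq_fintype_card, Fintype.card_pi]
      simp
    rw [← hcard]
    refine Nat.card_le_card_of_injective
      (fun w (j : Fin 4) => (⟨vec (List.ofFn w.1) n j, hmem w j j.2⟩ : I)) ?_
    intro w w' hw
    apply Subtype.ext
    apply List.ofFn_injective
    refine blk_ext (n := n) (by simp) (by simp) fun j hj => ?_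
    have := congrFun hw ⟨j, hj⟩
    simpa using this
  unfold amPr
  rw [div_le_iff₀ (by positivity)]
  have h2 : (Nat.card {w : Fin (4 * n) → Bool // ∃ y : List Bool, y.length ≤ 4 * n ∧
      VV A (pairBits (List.ofFn w) (pairBits y x)) = [true]} : ℝ) ≤ (I.card : ℝ) ^ 4 := by
    exact_mod_cast h1
  have h3 : (2 * (I.card : ℝ)) ≤ 2 ^ n := by exact_mod_cast h0
  have h4 : (2 * (I.card : ℝ)) ^ 4 ≤ (2 ^ n) ^ 4 := pow_le_pow_left₀ (by positivity) h3 4
  have h5 : ((2 : ℝ) ^ n) ^ 4 = 2 ^ (4 * n) := by rw [← pow_mul, mul_comm]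
  rw [h5] at h4
  nlinarith [h2, h4]

end Pool.Agent.W895.MA
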